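import Pool.Agent.H47.PL.Targets

/-!
# Planted formulas without the property X2 (row PL2 of pln_modules)
-/

set_option autoImplicit false

namespace Pool.Agent.H67.PLN

open Finset Pool.Agent.H97.RK Pool.Agent.H47.PL

theorem two_pow_mul_choose (m t : ℕ) : 2 ^ t * m.choose t ≤ (2 * m).choose t := by
  have h1 : ∀ t : ℕ, 2 ^ t * m.descFactorial t ≤ (2 * m).descFactorial t := by
    intro t
    induction t with
    | zero => simp
    | succ t ih =>
      rw [Nat.descFactorial_succ, Nat.descFactorial_succ]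
      calc 2 ^ (t + 1) * ((m - t) * m.descFactorial t)
          = (2 * (m - t)) * (2 ^ t * m.descFactorial t) := by ring
        _ ≤ (2 * m - t) * (2 * m).descFactorial t := Nat.mul_le_mul (by omega) ih
  have h2 := h1 t
  rw [Nat.descFactorial_eq_factorial_mul_choose, Nat.descFactorial_eq_factorial_mul_choose] at h2
  refine Nat.le_of_mul_le_mul_left ?_ (Nat.factorial_pos t)
  calc t.factorial * (2 ^ t * m.choose t) = 2 ^ t * (t.factorial * m.choose t) := by ring
    _ ≤ t.factorial * (2 * m).choose t := h2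

open Classical in
/-- (PL2) formulas without the property `X2`, with clauses in `Ω`. -/
theorem pf_PL2 : T_PL2 := by
  intro n k m t d e Ω hn hk hed hdn hΩ hΩ2
  obtain ⟨N, hN⟩ : ∃ N : ℝ, N = Ω.card := ⟨_, rfl⟩
  rw [← hN]
  have hn0 : (0 : ℝ) < n := by exact_mod_cast hn
  have hOm : (0 : ℝ) < ((Om n k).card : ℝ) := by exact_mod_cast card_Om_pos hk
  have hOm2 : ((Om n k).card : ℝ) ≤ 2 * N := by
    rw [hN]
    exact_mod_cast hΩ2
  have hNpos : 0 < N := by linarith
  obtain ⟨a₀, ha₀⟩ : ∃ a₀ : ℕ, a₀ = n - d + e := ⟨_, rfl⟩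
  have ha₀' : (a₀ : ℝ) = (n : ℝ) - d + e := by
    rw [ha₀]
    push_cast [hdn]
    ring
  rw [← ha₀']
  have ha₀n : a₀ ≤ n := by omega
  have hch : (2 : ℝ) ^ t * m.choose t ≤ (2 * m).choose t := by
    exact_mod_cast two_pow_mul_choose m t
  let T : (Fin n → Fin 3) → Finset (Fin n) := fun g => univ.filter fun u => g u = 1
  let W : (Fin n → Fin 3) → Finset (Fin n) := fun g => univ.filter fun u => g u = 2
  obtain ⟨P, hP⟩ : ∃ P : (Fin n → Bool) × (Fin n → Fin 3) → (Fin k → Fin n × Bool) → Prop,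
      ∀ a h, P a h ↔
        (∀ i, (h i).1 ∈ T a.2 ∪ W a.2) ∧ ∀ i, (h i).1 ∈ T a.2 → a.1 (h i).1 ≠ (h i).2 :=
    ⟨fun a h => (∀ i, (h i).1 ∈ T a.2 ∪ W a.2) ∧ ∀ i, (h i).1 ∈ T a.2 → a.1 (h i).1 ≠ (h i).2,
      fun _ _ => Iff.rfl⟩
  let I : Finset ((Fin n → Bool) × (Fin n → Fin 3)) :=
    univ.filter fun a => (W a.2).card ≤ e ∧ (T a.2).card + (W a.2).card + d ≤ n
  let S : (Fin n → Bool) × (Fin n → Fin 3) → Finset (Fml n k m) := fun a =>
    univ.filter fun F => (∀ c, F c ∈ Ω) ∧ t ≤ (univ.filter fun c => P a (F c)).card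
  have hsub : (univ.filter fun F : Fml n k m => (∀ c, F c ∈ Ω) ∧ ¬ X2 F t d e) ⊆
      I.biUnion S := by
    intro F hF
    rw [mem_filter] at hF
    have hX := hF.2.2
    unfold X2 at hX
    push Not at hX
    obtain ⟨y, T0, W0, hdis, hWe, hTW, ht⟩ := hX
    let g : Fin n → Fin 3 := fun u => if u ∈ T0 then 1 else if u ∈ W0 then 2 else 0
    have hT : T g = T0 := by
      ext u
      simp only [T, g, mem_filter, mem_univ, true_and]
      by_cases h1 : u ∈ T0
      · simp [h1]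
      · by_cases h2 : u ∈ W0 <;> simp [h1, h2]
    have hW : W g = W0 := by
      ext u
      simp only [W, g, mem_filter, mem_univ, true_and]
      by_cases h1 : u ∈ T0
      · have h2 : u ∉ W0 := fun h2 => (disjoint_left.1 hdis h1) h2
        simp [h1, h2]
      · by_cases h2 : u ∈ W0 <;> simp [h1, h2]
    rw [mem_biUnion]
    refine ⟨(y, g), ?_, ?_⟩
    · rw [mem_filter]
      refine ⟨mem_univ _, ?_, ?_⟩
      · rw [hW]; exact hWe
      · rw [hW, hT]; exact hTW
    · rw [mem_filter]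
      refine ⟨mem_univ _, hF.2.1, ht.trans (card_le_card ?_)⟩
      intro c hc
      rw [mem_filter] at hc ⊢
      refine ⟨mem_univ _, (hP _ _).2 ⟨?_, ?_⟩⟩
      · change ∀ i, (F c i).1 ∈ T g ∪ W g
        rw [hT, hW]
        exact hc.2.1
      · change ∀ i, (F c i).1 ∈ T g → y (F c i).1 ≠ (F c i).2
        rw [hT]
        exact hc.2.2
  have hb : ∀ a ∈ I, ((S a).card : ℝ) ≤
      (2 * m).choose t * ((a₀ : ℝ) / (2 * n)) ^ (k * t) * N ^ m := by
    intro a ha
    have ha' := (mem_filter.1 ha).2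
    have h1 : ((S a).card : ℝ) * N ^ t ≤
        m.choose t * ((Ω.filter (P a)).card : ℝ) ^ t * N ^ m := by
      rw [hN]
      exact count_over' m t Ω (P a) (S a) (fun F hF => (mem_filter.1 hF).2)
    have h2 : ((Ω.filter (P a)).card : ℝ) ≤ ((a₀ : ℝ) / (2 * n)) ^ k * (2 * N) := by
      refine le_trans ?_ ((card_clD a.1 (T a.2) (W a.2) a₀ (by omega) ha₀n hk hn).trans
        (mul_le_mul_of_nonneg_left hOm2 (by positivity)))
      have h3 : Ω.filter (P a) ⊆ (Om n k).filter fun h : Fin k → Fin n × Bool =>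
          (∀ i, (h i).1 ∈ T a.2 ∪ W a.2) ∧ ∀ i, (h i).1 ∈ T a.2 → a.1 (h i).1 ≠ (h i).2 := by
        intro h hh
        rw [mem_filter] at hh ⊢
        exact ⟨hΩ hh.1, (hP _ _).1 hh.2⟩
      exact_mod_cast card_le_card h3
    have h4 : ((S a).card : ℝ) * N ^ t ≤
        ((2 * m).choose t * ((a₀ : ℝ) / (2 * n)) ^ (k * t) * N ^ m) * N ^ t := by
      calc ((S a).card : ℝ) * N ^ t
          ≤ m.choose t * ((Ω.filter (P a)).card : ℝ) ^ t * N ^ m := h1
        _ ≤ m.choose t * (((a₀ : ℝ) / (2 * n)) ^ k * (2 * N)) ^ t * N ^ m := by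
            gcongr
        _ = (2 ^ t * m.choose t) * (((a₀ : ℝ) / (2 * n)) ^ (k * t) * N ^ m) * N ^ t := by
            rw [mul_pow, mul_pow, ← pow_mul]; ring
        _ ≤ (2 * m).choose t * (((a₀ : ℝ) / (2 * n)) ^ (k * t) * N ^ m) * N ^ t := by
            gcongr
        _ = ((2 * m).choose t * ((a₀ : ℝ) / (2 * n)) ^ (k * t) * N ^ m) * N ^ t := by ring
    exact le_of_mul_le_mul_right h4 (by positivity)
  have hI : (I.card : ℝ) ≤ 6 ^ n := by
    have h1 : I.card ≤ Fintype.card ((Fin n → Bool) × (Fin n → Fin 3)) := card_le_univ _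
    rw [Fintype.card_prod, Fintype.card_fun, Fintype.card_fun, Fintype.card_bool,
      Fintype.card_fin, Fintype.card_fin, ← mul_pow] at h1
    exact_mod_cast h1
  calc ((univ.filter fun F : Fml n k m => (∀ c, F c ∈ Ω) ∧ ¬ X2 F t d e).card : ℝ)
      ≤ ((I.biUnion S).card : ℝ) := by exact_mod_cast card_le_card hsub
    _ ≤ ((∑ a ∈ I, (S a).card : ℕ) : ℝ) := by exact_mod_cast card_biUnion_le
    _ = ∑ a ∈ I, ((S a).card : ℝ) := by push_cast; rfl
    _ ≤ ∑ _a ∈ I, (2 * m).choose t * ((a₀ : ℝ) / (2 * n)) ^ (k * t) * N ^ m := sum_le_sum hb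
    _ = I.card * ((2 * m).choose t * ((a₀ : ℝ) / (2 * n)) ^ (k * t) * N ^ m) := by
        rw [sum_const, nsmul_eq_mul]
    _ ≤ 6 ^ n * ((2 * m).choose t * ((a₀ : ℝ) / (2 * n)) ^ (k * t) * N ^ m) := by
        gcongr
    _ = 6 ^ n * (2 * m).choose t * ((a₀ : ℝ) / (2 * n)) ^ (k * t) * N ^ m := by ring

end Pool.Agent.H67.PLN
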