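import Pool.Agent.H47.PL.Targets2

/-!
# The potential (rows LPO, LAV of pln_modules)
-/

set_option autoImplicit false

namespace Pool.Agent.H67.PLN

open Finset Pool.Agent.H97.RK Pool.Agent.H47.PL

theorem pf_LPO : T_LPO := by
  intro α hα hα16
  refine ⟨⌈1 / (2 * α ^ 2)⌉₊ + 2, ?_⟩
  intro n a b d p hn ha hb hb2 hd hp0 hp1 hp
  have hn2 : 2 ≤ n := by omega
  have hnK : 1 / (2 * α ^ 2) ≤ (n : ℝ) := by
    refine (Nat.le_ceil _).trans ?_
    exact_mod_cast (by omega : ⌈1 / (2 * α ^ 2)⌉₊ ≤ n)
  have hn0 : (0 : ℝ) < n := by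
    have : (2 : ℝ) ≤ n := by exact_mod_cast hn2
    linarith
  have hbn : (2 * b : ℝ) ≤ n := by nlinarith
  have hbn' : 2 * b ≤ n := by exact_mod_cast hbn
  have hbN : b ≤ n - 1 := by omega
  obtain ⟨d', rfl⟩ : ∃ d', d = d' + 1 := ⟨d - 1, by omega⟩
  have e1 : d' + 1 - 1 = d' := rfl
  rw [e1]
  have hCb : (0 : ℝ) < ((n - 1).choose b : ℝ) := by exact_mod_cast Nat.choose_pos hbN
  unfold ph
  rcases lt_trichotomy (a + (d' + 1)) b with hc | hc | hc
  · -- below
    have m1 : min (a + d') b = a + d' := min_eq_left (by omega)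
    have m2 : min (a + (d' + 1)) b = a + d' + 1 := by rw [min_eq_left hc.le]; rfl
    have m3 : min (a + (d' + 1 + 1)) b = a + d' + 2 := by
      rw [min_eq_left (by omega)]; rfl
    rw [m1, m2, m3]
    set c := a + d' + 1 with hcdef
    have hcb : c + 1 ≤ b := by omega
    have e2 : a + d' + 2 = c + 1 := by omega
    have e3 : a + d' = c - 1 := by omega
    have r1 := Nat.choose_succ_right_eq (n - 1) (c - 1)
    have r2 := Nat.choose_succ_right_eq (n - 1) c
    rw [show c - 1 + 1 = c by omega, show n - 1 - (c - 1) = n - c by omega] at r1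
    rw [show n - 1 - c = n - (c + 1) by omega] at r2
    rw [e2, e3]
    have hC0 : (0 : ℝ) < ((n - 1).choose c : ℝ) := by
      exact_mod_cast Nat.choose_pos (by omega)
    have hC1 : (0 : ℝ) < ((n - 1).choose (c - 1) : ℝ) := by
      exact_mod_cast Nat.choose_pos (by omega)
    have hC2 : (0 : ℝ) < ((n - 1).choose (c + 1) : ℝ) := by
      exact_mod_cast Nat.choose_pos (by omega)
    have hcn : (c : ℝ) + 1 ≤ b := by exact_mod_cast hcb
    have hc0 : (0 : ℝ) < c := by exact_mod_cast (by omega : 0 < c)
    have hnc : (0 : ℝ) < (n : ℝ) - c := by linarith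
    have hnc1 : (0 : ℝ) < (n : ℝ) - 1 - c := by
      have : (b : ℝ) + b ≤ n := by linarith
      have hb1 : (1 : ℝ) ≤ b := by exact_mod_cast hb
      linarith
    have r1' : ((n - 1).choose c : ℝ) * c = ((n - 1).choose (c - 1) : ℝ) * (n - c) := by
      have : ((n - c : ℕ) : ℝ) = (n : ℝ) - c := by
        rw [Nat.cast_sub (by omega)]
      rw [← this]
      exact_mod_cast r1
    have r2' : ((n - 1).choose (c + 1) : ℝ) * (c + 1) = ((n - 1).choose c : ℝ) * (n - 1 - c) := by
      have : ((n - (c + 1) : ℕ) : ℝ) = (n : ℝ) - 1 - c := by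
        rw [Nat.cast_sub (by omega)]
        push_cast
        ring
      rw [← this]
      exact_mod_cast r2
    have i1 : 1 / ((n - 1).choose (c - 1) : ℝ) =
        1 / ((n - 1).choose c : ℝ) * (((n : ℝ) - c) / c) := by
      field_simp
      linarith
    have i2 : 1 / ((n - 1).choose (c + 1) : ℝ) =
        1 / ((n - 1).choose c : ℝ) * (((c : ℝ) + 1) / (n - 1 - c)) := by
      field_simp
      linarith
    rw [i1, i2]
    set A := ((n : ℝ) - c) / c with hA
    set B := ((c : ℝ) + 1) / (n - 1 - c) with hB
    have hpc : p ≤ c / n - α := by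
      have h1 : (c : ℝ) = a + ((d' + 1 : ℕ) : ℝ) := by
        rw [hcdef]
        push_cast
        ring
      have h2 : 3 * α ≤ (a : ℝ) / n := by
        rw [le_div_iff₀ hn0]
        linarith
      rw [h1, add_div]
      linarith
    have hBle : B ≤ 1 := by
      rw [hB, div_le_one hnc1]
      linarith
    have hAge : 1 + 4 * α ≤ A := by
      rw [hA, le_div_iff₀ hc0]
      have h1 : (c : ℝ) ≤ (1 - 2 * α) * n / 2 := by linarith
      have h2 : (1 + 4 * α) * c + c ≤ n := by
        have h3 : ((1 + 4 * α) + 1) * c ≤ ((1 + 4 * α) + 1) * ((1 - 2 * α) * n / 2) :=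
          mul_le_mul_of_nonneg_left h1 (by positivity)
        have h4 : ((1 + 4 * α) + 1) * ((1 - 2 * α) * n / 2) = (1 - 4 * α ^ 2) * n := by ring
        have h5 : (1 - 4 * α ^ 2) * n ≤ n := by nlinarith [sq_nonneg α]
        linarith
      linarith
    have hf : p * A + (1 - p) * B ≤ 1 := by
      have h1 : p * A + (1 - p) * B = B + p * (A - B) := by ring
      have h2 : p * (A - B) ≤ (c / n - α) * (A - B) :=
        mul_le_mul_of_nonneg_right hpc (by linarith)
      have h3 : B + (c / n : ℝ) * (A - B) = ((n : ℝ) - c) / (n - 1 - c) := by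
        rw [hA, hB]
        field_simp
        ring
      have h4 : ((n : ℝ) - c) / (n - 1 - c) ≤ 1 + 2 / n := by
        rw [div_le_iff₀ hnc1]
        have h5 : (n : ℝ) ≤ 2 * (n - 1 - c) := by linarith
        have h6 : 1 ≤ 2 / (n : ℝ) * (n - 1 - c) := by
          rw [div_mul_eq_mul_div, le_div_iff₀ hn0]
          linarith
        nlinarith
      have h5 : α * (4 * α) ≤ α * (A - B) :=
        mul_le_mul_of_nonneg_left (by linarith) hα.le
      have h6 : 2 / (n : ℝ) ≤ 4 * α ^ 2 := by
        rw [div_le_iff₀ hn0]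
        rw [div_le_iff₀ (by positivity)] at hnK
        linarith
      nlinarith
    have h7 : p * (1 / ((n - 1).choose c : ℝ) * A) + (1 - p) * (1 / ((n - 1).choose c : ℝ) * B) =
        1 / ((n - 1).choose c : ℝ) * (p * A + (1 - p) * B) := by ring
    rw [h7]
    have h8 : 1 / ((n - 1).choose c : ℝ) * (p * A + (1 - p) * B) ≤ 1 / ((n - 1).choose c : ℝ) :=
      mul_le_of_le_one_right (by positivity) hf
    have h9 : 0 < 1 / ((n - 1).choose b : ℝ) := by positivity
    linarith
  · -- equal
    have m1 : min (a + d') b = b - 1 := by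
      rw [min_eq_left (by omega)]; omega
    have m2 : min (a + (d' + 1)) b = b := min_eq_right (by omega)
    have m3 : min (a + (d' + 1 + 1)) b = b := min_eq_right (by omega)
    rw [m1, m2, m3]
    have r1 := Nat.choose_succ_right_eq (n - 1) (b - 1)
    rw [show b - 1 + 1 = b by omega, show n - 1 - (b - 1) = n - b by omega] at r1
    have hC1 : (0 : ℝ) < ((n - 1).choose (b - 1) : ℝ) := by
      exact_mod_cast Nat.choose_pos (by omega)
    have hb0 : (0 : ℝ) < b := by exact_mod_cast hb
    have hnb : (0 : ℝ) < (n : ℝ) - b := by linarith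
    have r1' : ((n - 1).choose b : ℝ) * b = ((n - 1).choose (b - 1) : ℝ) * (n - b) := by
      have : ((n - b : ℕ) : ℝ) = (n : ℝ) - b := by
        rw [Nat.cast_sub (by omega)]
      rw [← this]
      exact_mod_cast r1
    have i1 : 1 / ((n - 1).choose (b - 1) : ℝ) =
        1 / ((n - 1).choose b : ℝ) * (((n : ℝ) - b) / b) := by
      field_simp
      linarith
    rw [i1]
    have hpb : p ≤ b / n := by
      have h1 : (b : ℝ) = a + ((d' + 1 : ℕ) : ℝ) := by
        rw [← hc]
        push_cast
        ring
      have h2 : 3 * α ≤ (a : ℝ) / n := by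
        rw [le_div_iff₀ hn0]
        linarith
      rw [h1, add_div]
      linarith
    have h1 : p * (((n : ℝ) - b) / b) ≤ 1 := by
      calc p * (((n : ℝ) - b) / b) ≤ (b / n) * (((n : ℝ) - b) / b) :=
            mul_le_mul_of_nonneg_right hpb (by positivity)
        _ = ((n : ℝ) - b) / n := by field_simp
        _ ≤ 1 := by rw [div_le_one hn0]; linarith
    have h2 : 0 < 1 / ((n - 1).choose b : ℝ) := by positivity
    have h3 : p * (1 / ((n - 1).choose b : ℝ) * (((n : ℝ) - b) / b)) =
        1 / ((n - 1).choose b : ℝ) * (p * (((n : ℝ) - b) / b)) := by ring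
    rw [h3]
    have h4 : 1 / ((n - 1).choose b : ℝ) * (p * (((n : ℝ) - b) / b)) ≤
        1 / ((n - 1).choose b : ℝ) := mul_le_of_le_one_right h2.le h1
    have h5 : (1 - p) * (1 / ((n - 1).choose b : ℝ)) ≤ 1 / ((n - 1).choose b : ℝ) :=
      mul_le_of_le_one_left h2.le (by linarith)
    linarith
  · -- above
    have m1 : min (a + d') b = b := min_eq_right (by omega)
    have m2 : min (a + (d' + 1)) b = b := min_eq_right (by omega)
    have m3 : min (a + (d' + 1 + 1)) b = b := min_eq_right (by omega)
    rw [m1, m2, m3]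
    have h2 : 0 < 1 / ((n - 1).choose b : ℝ) := by positivity
    have h3 : p * (1 / ((n - 1).choose b : ℝ)) + (1 - p) * (1 / ((n - 1).choose b : ℝ)) =
        1 / ((n - 1).choose b : ℝ) := by ring
    rw [h3]
    linarith

theorem card_dst (n d : ℕ) (z : Fin n → Bool) :
    (univ.filter fun y : Fin n → Bool => dst y z = d).card = n.choose d := by
  classical
  have h1 : (powersetCard d (univ : Finset (Fin n))).card = n.choose d := by
    rw [card_powersetCard, card_univ, Fintype.card_fin]
  rw [← h1]
  refine card_nbij' (fun y => univ.filter fun u => y u ≠ z u)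
    (fun D u => if u ∈ D then !(z u) else z u) ?_ ?_ ?_ ?_
  · intro y hy
    have hy' := (mem_filter.1 hy).2
    exact mem_powersetCard.2 ⟨subset_univ _, hy'⟩
  · intro D hD
    have hD' := (mem_powersetCard.1 hD).2
    refine mem_filter.2 ⟨mem_univ _, ?_⟩
    unfold dst
    rw [← hD']
    congr 1
    ext u
    rw [mem_filter]
    by_cases hu : u ∈ D
    · simp [hu]
    · simp [hu]
  · intro y _
    funext u
    simp only [mem_filter, mem_univ, true_and]
    by_cases hu : y u = z u
    · simp [hu]
    · rw [if_pos hu]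
      cases hy : y u <;> cases hz : z u <;> simp_all
  · intro D _
    ext u
    rw [mem_filter]
    by_cases hu : u ∈ D
    · simp [hu]
    · simp [hu]

theorem choose_mono (N b d : ℕ) (hb : 2 * b ≤ N) :
    ∀ j, d + j ≤ b → N.choose d ≤ N.choose (d + j) := by
  intro j
  induction j with
  | zero => intro _; exact le_rfl
  | succ j ih =>
    intro hj
    refine (ih (by omega)).trans ?_
    exact Nat.choose_le_succ_of_lt_half_left (by omega)

theorem pf_LAV : T_LAV := by
  classical
  intro n a b z hn hb
  have hCb : (0 : ℝ) < ((n - 1).choose b : ℝ) := by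
    exact_mod_cast Nat.choose_pos (by omega)
  have hterm : ∀ d ∈ range (n + 1), (n.choose d : ℝ) * ph n a b d ≤
      2 + (n.choose d : ℝ) / (n - 1).choose b := by
    intro d _
    unfold ph
    by_cases hd : a + d ≤ b
    · rw [min_eq_left hd]
      have h1 : n.choose d ≤ 2 * (n - 1).choose d := by
        have h2 := Nat.choose_mul_succ_eq (n - 1) d
        rw [show n - 1 + 1 = n by omega] at h2
        have h3 : n * n.choose d ≤ n * (2 * (n - 1).choose d) := by
          calc n * n.choose d ≤ (2 * (n - d)) * n.choose d :=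
                Nat.mul_le_mul_right _ (by omega)
            _ = 2 * (n.choose d * (n - d)) := by ring
            _ = n * (2 * (n - 1).choose d) := by rw [← h2]; ring
        exact Nat.le_of_mul_le_mul_left h3 (by omega)
      have h4 : (n - 1).choose d ≤ (n - 1).choose (a + d) := by
        rw [add_comm a d]
        exact choose_mono (n - 1) b d hb a (by omega)
      have h5 : (0 : ℝ) < ((n - 1).choose (a + d) : ℝ) := by
        exact_mod_cast Nat.choose_pos (by omega)
      have h6 : (n.choose d : ℝ) ≤ 2 * ((n - 1).choose (a + d) : ℝ) := by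
        exact_mod_cast h1.trans (Nat.mul_le_mul_left 2 h4)
      have h7 : (n.choose d : ℝ) * (1 / ((n - 1).choose (a + d) : ℝ)) ≤ 2 := by
        rw [mul_one_div, div_le_iff₀ h5]
        exact h6
      have h8 : (0 : ℝ) ≤ (n.choose d : ℝ) / (n - 1).choose b := by positivity
      linarith
    · rw [min_eq_right (by omega), mul_one_div]
      linarith
  have hsum : ∑ y, ph n a b (dst y z) = ∑ d ∈ range (n + 1), (n.choose d : ℝ) * ph n a b d := by
    rw [← sum_fiberwise_of_maps_to (s := (univ : Finset (Fin n → Bool))) (t := range (n + 1))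
      (g := fun y => dst y z) (fun y _ => by
        rw [mem_range]
        have : dst y z ≤ n := by
          unfold dst
          exact (card_le_univ _).trans (by rw [Fintype.card_fin])
        omega)]
    refine sum_congr rfl fun d _ => ?_
    rw [sum_congr rfl (g := fun _ => ph n a b d) (fun y hy => by rw [(mem_filter.1 hy).2]),
      sum_const, nsmul_eq_mul]
    congr 2
    exact card_dst n d z
  have h2n : (0 : ℝ) < 2 ^ n := by positivity
  rw [hsum, div_le_iff₀ h2n]
  refine (sum_le_sum hterm).trans ?_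
  rw [sum_add_distrib, sum_const, card_range, nsmul_eq_mul, ← sum_div]
  have h3 : ∑ d ∈ range (n + 1), (n.choose d : ℝ) = 2 ^ n := by
    have := Nat.sum_range_choose n
    exact_mod_cast this
  rw [h3]
  have h4 : (2 * ((n : ℝ) + 1) / 2 ^ n + 1 / ((n - 1).choose b : ℝ)) * 2 ^ n =
      2 * (n + 1) + 2 ^ n / ((n - 1).choose b : ℝ) := by
    field_simp
  rw [h4]
  push_cast
  linarith

end Pool.Agent.H67.PLN
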